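import Pool.Agent.Work.MP_0fc146_gt_h31.Interface

/-!
# Block Sub of MP_0fc146_gt: `pathAut p` is a positive substitution, the widths are eigenvectors
-/

noncomputable section

namespace Pool.Agent.CircleShift

namespace SubAux

theorem posG_nil : posG [] = 1 := by
  simp [posG, posW, FreeGroup.one_eq_mk]

theorem posG_append (l m : List (Fin 4)) : posG (l ++ m) = posG l * posG m := by
  simp [posG, posW, FreeGroup.mul_mk]

theorem posG_singleton (x : Fin 4) : posG [x] = FreeGroup.of x := rfl

theorem posG_cons (x : Fin 4) (l : List (Fin 4)) :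
    posG (x :: l) = FreeGroup.of x * posG l := by
  rw [← List.singleton_append, posG_append, posG_singleton]

theorem roleAut_of (r : Fin 13) (x : Fin 4) :
    roleAut r (FreeGroup.of x) = posG (roleSub r x) := by
  have h := ofTabs_mk (fun i => posW (roleSub r i)) (roleInv r) (roleInvTest r) [(x, true)]
  have h2 : substW (fun i => posW (roleSub r i)) [(x, true)] = posW (roleSub r x) := by
    simp [substW]
  rw [h2] at h
  exact h

theorem roleAut_posG (r : Fin 13) (l : List (Fin 4)) :
    roleAut r (posG l) = posG (l.flatMap (roleSub r)) := by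
  induction l with
  | nil => simp [posG_nil]
  | cons x l ih =>
    rw [posG_cons, map_mul, ih, roleAut_of, List.flatMap_cons, posG_append]

theorem pathAut_nil : pathAut [] = 1 := rfl

theorem pathAut_cons (r : Fin 13) (p : List (Fin 13)) :
    pathAut (r :: p) = roleAut r * pathAut p := by
  simp [pathAut]

theorem pathAut_append (p q : List (Fin 13)) :
    pathAut (p ++ q) = pathAut p * pathAut q := by
  simp [pathAut]

theorem pathAut_of (p : List (Fin 13)) (x : Fin 4) :
    pathAut p (FreeGroup.of x) = posG (pathSub p x) := by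
  induction p with
  | nil => simp [pathAut_nil, pathSub, posG_singleton]
  | cons r p ih =>
    rw [pathAut_cons, MulAut.mul_apply, ih, roleAut_posG]
    rfl

theorem pathAut_posG (p : List (Fin 13)) (l : List (Fin 4)) :
    pathAut p (posG l) = posG (l.flatMap (pathSub p)) := by
  induction l with
  | nil => simp [posG_nil]
  | cons x l ih =>
    rw [posG_cons, map_mul, ih, pathAut_of, List.flatMap_cons, posG_append]

theorem pathSub_append (p q : List (Fin 13)) (x : Fin 4) :
    pathSub (p ++ q) x = (pathSub q x).flatMap (pathSub p) := by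
  induction p with
  | nil =>
    simp only [List.nil_append]
    have : (pathSub [] : Fin 4 → List (Fin 4)) = fun x => [x] := rfl
    rw [this, List.flatMap_singleton']
  | cons r p ih =>
    rw [List.cons_append]
    show (pathSub (p ++ q) x).flatMap (roleSub r) = _
    rw [ih, List.flatMap_assoc]
    rfl

theorem wlen_append (j : Fin 3) (v w : List (Fin 4 × Bool)) :
    wlen j (v ++ w) = wlen j v + wlen j w := by
  simp [wlen]

theorem wlen_nil (j : Fin 3) : wlen j [] = 0 := rfl

theorem wlen_cons (j : Fin 3) (x : Fin 4 × Bool) (w : List (Fin 4 × Bool)) :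
    wlen j (x :: w) = wid j x.1 + wlen j w := by
  simp [wlen]

theorem posW_append (l m : List (Fin 4)) : posW (l ++ m) = posW l ++ posW m := by
  simp [posW]

theorem posW_cons (x : Fin 4) (l : List (Fin 4)) : posW (x :: l) = (x, true) :: posW l := rfl

/-- Sum of integer pairs. -/
def psum (t : Fin 4 → ℤ × ℤ) (l : List (Fin 4)) : ℤ × ℤ := (l.map t).sum

theorem z3_add (a b : ℤ × ℤ) : z3 (a + b) = z3 a + z3 b := by
  simp [z3]; ring

theorem wlen_posW (j : Fin 3) (l : List (Fin 4)) :
    wlen j (posW l) = z3 (psum (widTab j) l) := by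
  induction l with
  | nil => simp [wlen, posW, psum, z3]
  | cons x l ih =>
    rw [posW_cons, wlen_cons, ih]
    have : psum (widTab j) (x :: l) = widTab j x + psum (widTab j) l := by simp [psum]
    rw [this, z3_add]
    rfl

theorem sq3 : √3 * √3 = (3 : ℝ) := Real.mul_self_sqrt (by norm_num)

theorem lam_mul_z3 (a : ℤ × ℤ) : lam * z3 a = z3 (2 * a.1 + 3 * a.2, a.1 + 2 * a.2) := by
  simp only [z3, lam]
  push_cast
  linear_combination (a.2 : ℝ) * sq3

theorem tab : ∀ (r : Fin 13) (x : Fin 4), psum (widTab (roleSrc r)) (roleSub r x) =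
    (2 * (widTab (roleTgt r) x).1 + 3 * (widTab (roleTgt r) x).2,
      (widTab (roleTgt r) x).1 + 2 * (widTab (roleTgt r) x).2) := by
  decide +kernel

theorem role_eig (r : Fin 13) (x : Fin 4) :
    wlen (roleSrc r) (posW (roleSub r x)) = lam * wid (roleTgt r) x := by
  rw [wlen_posW, tab, wid, lam_mul_z3]

theorem wlen_flatMap (r : Fin 13) (l : List (Fin 4)) :
    wlen (roleSrc r) (posW (l.flatMap (roleSub r))) = lam * wlen (roleTgt r) (posW l) := by
  induction l with
  | nil => simp [wlen, posW]
  | cons x l ih =>
    rw [List.flatMap_cons, posW_append, wlen_append, ih, role_eig, posW_cons, wlen_cons]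
    ring

theorem path_eig (j i : Fin 3) (p : List (Fin 13)) (h : RPath j i p) (x : Fin 4) :
    wlen j (posW (pathSub p x)) = lam ^ p.length * wid i x := by
  induction h with
  | nil j => simp [pathSub, posW, wlen]
  | cons r p i h ih =>
    show wlen _ (posW ((pathSub p x).flatMap (roleSub r))) = _
    rw [wlen_flatMap, ih, List.length_cons, pow_succ]
    ring

theorem sqrt3_lo : (1.7320508 : ℝ) < √3 := by
  rw [Real.lt_sqrt (by norm_num)]; norm_num

theorem sqrt3_hi : √3 < (1.7320509 : ℝ) := by
  rw [Real.sqrt_lt' (by norm_num)]; norm_num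

theorem wid_bounds (j : Fin 3) (x : Fin 4) : 0 < wid j x ∧ wid j x < 1 := by
  have h1 := sqrt3_lo
  have h2 := sqrt3_hi
  fin_cases j <;> fin_cases x <;> constructor <;> simp [wid, widTab, z3] <;> linarith

end SubAux

theorem stmt_Sub : Stmt_Sub :=
  ⟨SubAux.pathAut_of, SubAux.role_eig, SubAux.path_eig, SubAux.wid_bounds⟩

end Pool.Agent.CircleShift
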