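import Pool.Agent.Work.MP_0fc146_gt_helper78.Sub

/-!
# Block Doeb of MP_0fc146_gt: contraction of the products of the transition matrices
-/

noncomputable section

namespace Pool.Agent.CircleShift

namespace DoebAux
open SubAux

theorem lam_gt : (3.7 : ℝ) < lam := by have := sqrt3_lo; unfold lam; linarith
theorem lam_lt : lam < (3.7320509 : ℝ) := by have := sqrt3_hi; unfold lam; linarith
theorem lam_pos : 0 < lam := by have := lam_gt; linarith
theorem one_lt_lam : 1 < lam := by have := lam_gt; linarith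

theorem wid_lo (j : Fin 3) (x : Fin 4) : (1 / 60 : ℝ) ≤ wid j x := by
  have h1 := sqrt3_lo
  have h2 := sqrt3_hi
  fin_cases j <;> fin_cases x <;> simp [wid, widTab, z3] <;> linarith

theorem wid_pos (j : Fin 3) (x : Fin 4) : 0 < wid j x := (wid_bounds j x).1
theorem wid_lt (j : Fin 3) (x : Fin 4) : wid j x < 1 := (wid_bounds j x).2

theorem lam3_lt : lam ^ 3 < 52 := by
  have h1 := lam_lt
  have h2 := lam_pos
  calc lam ^ 3 ≤ (3.7320509 : ℝ) ^ 3 := pow_le_pow_left₀ h2.le h1.le 3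
    _ < 52 := by norm_num

theorem inv_aux {j i : Fin 3} {p' : List (Fin 13)} (h : RPath j i p') :
    (p' = [] → j = i) ∧ ∀ r p, p' = r :: p → j = roleSrc r ∧ RPath (roleTgt r) i p := by
  cases h with
  | nil => exact ⟨fun _ => rfl, fun r p h => by simp at h⟩
  | cons r p _ h =>
    refine ⟨fun h => by simp at h, fun r' p' he => ?_⟩
    obtain ⟨rfl, rfl⟩ := List.cons.inj he
    exact ⟨rfl, h⟩

theorem inv_nil {j i : Fin 3} (h : RPath j i []) : j = i := (inv_aux h).1 rfl

theorem inv_cons {j i : Fin 3} {r : Fin 13} {p : List (Fin 13)} (h : RPath j i (r :: p)) :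
    j = roleSrc r ∧ RPath (roleTgt r) i p := (inv_aux h).2 r p rfl

theorem split {j i : Fin 3} {q u : List (Fin 13)} (h : RPath j i (q ++ u)) :
    ∃ k, RPath j k q ∧ RPath k i u := by
  induction q generalizing j with
  | nil => exact ⟨j, RPath.nil j, h⟩
  | cons r q ih =>
    rw [List.cons_append] at h
    obtain ⟨rfl, h'⟩ := inv_cons h
    obtain ⟨k, h1, h2⟩ := ih h'
    exact ⟨k, RPath.cons r q k h1, h2⟩

theorem join {j k i : Fin 3} {q u : List (Fin 13)} (h1 : RPath j k q) (h2 : RPath k i u) :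
    RPath j i (q ++ u) := by
  induction h1 with
  | nil j => exact h2
  | cons r p k h ih => exact RPath.cons r _ i (ih h2)

theorem uniq {j i i' : Fin 3} {p : List (Fin 13)} (h : RPath j i p) (h' : RPath j i' p) :
    i = i' := by
  induction p generalizing j with
  | nil => exact (inv_nil h).symm.trans (inv_nil h')
  | cons r p ih => exact ih (inv_cons h).2 (inv_cons h').2

theorem single {k i : Fin 3} {r : Fin 13} (h : RPath k i [r]) : k = roleSrc r ∧ i = roleTgt r := by
  obtain ⟨h1, h2⟩ := inv_cons h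
  exact ⟨h1, (inv_nil h2).symm⟩

/-- The end of a path. -/
def tgtOf (p : List (Fin 13)) : Fin 3 := match p.getLast? with
  | some r => roleTgt r
  | none => 0

theorem tgtOf_eq {j i : Fin 3} {p : List (Fin 13)} (h : RPath j i p) (hp : p ≠ []) :
    tgtOf p = i := by
  obtain ⟨q, r, rfl⟩ : ∃ q r, p = q ++ [r] := ⟨p.dropLast, p.getLast hp,
    (List.dropLast_append_getLast hp).symm⟩
  obtain ⟨k, _, h2⟩ := split h
  rw [(single h2).2]
  simp [tgtOf]

/-- Bounds of the normalised values. -/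
def Bd (ℓ : List (Fin 13) → Fin 4 → ℝ) (q : List (Fin 13)) (k : Fin 3) (m M : ℝ) : Prop :=
  ∀ y, m * (lam ^ q.length * wid k y) ≤ ℓ q y ∧ ℓ q y ≤ M * (lam ^ q.length * wid k y)

theorem Bd.mono {ℓ : List (Fin 13) → Fin 4 → ℝ} {q : List (Fin 13)} {k : Fin 3} {m M m' M' : ℝ}
    (h : Bd ℓ q k m M) (h1 : m' ≤ m) (h2 : M ≤ M') : Bd ℓ q k m' M' := by
  intro y
  have h3 : 0 ≤ lam ^ q.length * wid k y := mul_nonneg (pow_nonneg lam_pos.le _) (wid_pos k y).le
  exact ⟨(mul_le_mul_of_nonneg_right h1 h3).trans (h y).1,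
    (h y).2.trans (mul_le_mul_of_nonneg_right h2 h3)⟩

theorem Bd.word {ℓ : List (Fin 13) → Fin 4 → ℝ} {q : List (Fin 13)} {k : Fin 3} {m M : ℝ}
    (h : Bd ℓ q k m M) (l : List (Fin 4)) :
    m * (lam ^ q.length * wlen k (posW l)) ≤ (l.map (ℓ q)).sum ∧
      (l.map (ℓ q)).sum ≤ M * (lam ^ q.length * wlen k (posW l)) := by
  induction l with
  | nil => simp [posW, wlen]
  | cons x l ih =>
    rw [posW_cons, wlen_cons, List.map_cons, List.sum_cons]
    have := h x
    constructor <;> nlinarith [ih.1, ih.2, this.1, this.2]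

/-- With a marked letter. -/
theorem Bd.word' {ℓ : List (Fin 13) → Fin 4 → ℝ} {q : List (Fin 13)} {k : Fin 3} {m M : ℝ}
    (h : Bd ℓ q k m M) (l : List (Fin 4)) (z : Fin 4) (hz : z ∈ l) :
    m * (lam ^ q.length * (wlen k (posW l) - wid k z)) + ℓ q z ≤ (l.map (ℓ q)).sum ∧
      (l.map (ℓ q)).sum ≤ M * (lam ^ q.length * (wlen k (posW l) - wid k z)) + ℓ q z := by
  induction l with
  | nil => simp at hz
  | cons x l ih =>
    rw [posW_cons, wlen_cons, List.map_cons, List.sum_cons]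
    rcases List.mem_cons.1 hz with rfl | hz'
    · have := h.word l
      constructor <;> nlinarith [this.1, this.2]
    · have h1 := ih hz'
      have h2 := h x
      constructor <;> nlinarith [h1.1, h1.2, h2.1, h2.2]

/-- The recursion hypothesis. -/
def Rec (ℓ : List (Fin 13) → Fin 4 → ℝ) (C : ℝ) (p : List (Fin 13)) : Prop :=
  ∀ q r, q ++ [r] <+: p → ∀ x, |ℓ (q ++ [r]) x - ((roleSub r x).map (ℓ q)).sum| ≤ C

theorem Rec.word {ℓ : List (Fin 13) → Fin 4 → ℝ} {C : ℝ} {p : List (Fin 13)} (hr : Rec ℓ C p)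
    {q : List (Fin 13)} {r : Fin 13} (hq : q ++ [r] <+: p) (l : List (Fin 4)) :
    |(l.map (ℓ (q ++ [r]))).sum - ((l.flatMap (roleSub r)).map (ℓ q)).sum| ≤ C * l.length := by
  induction l with
  | nil => simp
  | cons x l ih =>
    rw [List.flatMap_cons, List.map_append, List.sum_append, List.map_cons, List.sum_cons,
      List.length_cons]
    have h1 := hr q r hq x
    push_cast
    rw [abs_le] at ih h1 ⊢
    constructor <;> linarith [ih.1, ih.2, h1.1, h1.2]

theorem step1 {ℓ : List (Fin 13) → Fin 4 → ℝ} {C : ℝ} (hC : 0 ≤ C) {p : List (Fin 13)}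
    (hr : Rec ℓ C p) {q : List (Fin 13)} {r : Fin 13} (hq : q ++ [r] <+: p) {m M : ℝ}
    (h : Bd ℓ q (roleSrc r) m M) :
    Bd ℓ (q ++ [r]) (roleTgt r) (m - 60 * C * (lam ^ (q.length + 1))⁻¹)
      (M + 60 * C * (lam ^ (q.length + 1))⁻¹) := by
  intro x
  have h1 := h.word (roleSub r x)
  rw [role_eig] at h1
  have h2 := abs_le.1 (hr q r hq x)
  have h3 : 0 < lam ^ (q.length + 1) := pow_pos lam_pos _
  have h4 := wid_lo (roleTgt r) x
  have h5 : (q ++ [r]).length = q.length + 1 := by simp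
  have h6 : 60 * C * (lam ^ (q.length + 1))⁻¹ * (lam ^ (q.length + 1) * wid (roleTgt r) x) =
      60 * C * wid (roleTgt r) x := by
    field_simp
  have h7 : C ≤ 60 * C * wid (roleTgt r) x := by nlinarith
  have h8 : lam ^ (q.length + 1) = lam ^ q.length * lam := pow_succ _ _
  rw [h5]
  constructor
  · rw [sub_mul, h6]
    calc m * (lam ^ (q.length + 1) * wid (roleTgt r) x) - 60 * C * wid (roleTgt r) x
        ≤ m * (lam ^ q.length * (lam * wid (roleTgt r) x)) - C := by rw [h8]; nlinarith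
      _ ≤ _ := by linarith [h1.1, h2.1]
  · rw [add_mul, h6]
    calc ℓ (q ++ [r]) x ≤ M * (lam ^ q.length * (lam * wid (roleTgt r) x)) + C := by
          linarith [h1.2, h2.2]
      _ ≤ _ := by rw [h8]; nlinarith

theorem nest {ℓ : List (Fin 13) → Fin 4 → ℝ} {C : ℝ} (hC : 0 ≤ C) {p : List (Fin 13)}
    (hr : Rec ℓ C p) {q : List (Fin 13)} {k : Fin 3} {m M : ℝ} (h : Bd ℓ q k m M)
    (u : List (Fin 13)) : ∀ i, RPath k i u → q ++ u <+: p →
    Bd ℓ (q ++ u) i (m - 30 * C * ((lam ^ q.length)⁻¹ - (lam ^ (q ++ u).length)⁻¹))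
      (M + 30 * C * ((lam ^ q.length)⁻¹ - (lam ^ (q ++ u).length)⁻¹)) := by
  induction u using List.reverseRecOn with
  | nil =>
    intro i hk _
    cases hk
    simpa using h
  | append_singleton u r ih =>
    intro i hk hp
    obtain ⟨k', hk1, hk2⟩ := split hk
    obtain ⟨rfl, rfl⟩ := single hk2
    rw [← List.append_assoc] at hp ⊢
    have hp' : q ++ u <+: p := (List.prefix_append _ _).trans hp
    have h1 := step1 hC hr hp (ih _ hk1 hp')
    have h5 : ((q ++ u) ++ [r]).length = (q ++ u).length + 1 := by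
      rw [List.length_append]; rfl
    rw [h5]
    set n := (q ++ u).length
    have h8 : (lam ^ n)⁻¹ = lam * (lam ^ (n + 1))⁻¹ := by
      rw [pow_succ]; field_simp [lam_pos.ne']
    have h9 : 0 < (lam ^ (n + 1))⁻¹ := inv_pos.2 (pow_pos lam_pos _)
    have h10 : 3 * (lam ^ (n + 1))⁻¹ ≤ (lam ^ n)⁻¹ := by
      rw [h8]; nlinarith [lam_gt]
    refine h1.mono ?_ ?_
    · nlinarith
    · nlinarith

theorem posCol : ∀ r1 r2 r3 : Fin 13, roleTgt r1 = roleSrc r2 → roleTgt r2 = roleSrc r3 →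
    ∃ z : Fin 4, ∀ x : Fin 4, ∃ y : Fin 4, y ∈ roleSub r3 x ∧ ∃ y' : Fin 4, y' ∈ roleSub r2 y ∧
      z ∈ roleSub r1 y' := by
  decide +kernel

theorem subLen : ∀ (r : Fin 13) (x : Fin 4), (roleSub r x).length ≤ 50 := by
  decide +kernel

theorem flatMap_len (r : Fin 13) (l : List (Fin 4)) :
    (l.flatMap (roleSub r)).length ≤ 50 * l.length := by
  induction l with
  | nil => simp
  | cons x l ih =>
    rw [List.flatMap_cons, List.length_append, List.length_cons]
    have := subLen r x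
    omega

theorem step3 {ℓ : List (Fin 13) → Fin 4 → ℝ} {C : ℝ} (hC : 0 ≤ C) {p : List (Fin 13)}
    (hr : Rec ℓ C p) {q : List (Fin 13)} {k i : Fin 3} {r1 r2 r3 : Fin 13}
    (hq : q ++ [r1, r2, r3] <+: p) (hk : RPath k i [r1, r2, r3]) {m M : ℝ}
    (h : Bd ℓ q k m M) :
    ∃ m' M', Bd ℓ (q ++ [r1, r2, r3]) i m' M' ∧
      M' - m' ≤ (1 - 1 / 4000) * (M - m) + 400000 * C * (lam ^ q.length)⁻¹ := by
  obtain ⟨hk1, hk2⟩ := inv_cons hk
  obtain ⟨hk3, hk4⟩ := inv_cons hk2
  obtain ⟨hk5, hk6⟩ := inv_cons hk4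
  have hk7 := inv_nil hk6
  obtain ⟨z, hz⟩ := posCol r1 r2 r3 hk3 hk5
  have hz' : ∀ x, z ∈ pathSub [r1, r2, r3] x := by
    intro x
    obtain ⟨y, hy, y', hy', hzy⟩ := hz x
    simp only [pathSub, List.mem_flatMap, List.mem_singleton]
    exact ⟨y', ⟨y, ⟨x, rfl, hy⟩, hy'⟩, hzy⟩
  -- the error
  have herr : ∀ x, |ℓ (q ++ [r1, r2, r3]) x - ((pathSub [r1, r2, r3] x).map (ℓ q)).sum| ≤
      2551 * C := by
    intro x
    have e0 : q ++ [r1, r2, r3] = ((q ++ [r1]) ++ [r2]) ++ [r3] := by simp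
    have e1 : pathSub [r1, r2, r3] x =
        ((roleSub r3 x).flatMap (roleSub r2)).flatMap (roleSub r1) := by
      simp [pathSub]
    rw [e1, e0]
    rw [e0] at hq
    have hq2 : (q ++ [r1]) ++ [r2] <+: p := (List.prefix_append _ _).trans hq
    have hq3 : q ++ [r1] <+: p := (List.prefix_append _ _).trans hq2
    have h1 := abs_le.1 (hr _ _ hq x)
    have h2 := abs_le.1 (hr.word hq2 (roleSub r3 x))
    have h3 := abs_le.1 (hr.word hq3 ((roleSub r3 x).flatMap (roleSub r2)))
    have l1 : ((roleSub r3 x).length : ℝ) ≤ 50 := by exact_mod_cast subLen r3 x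
    have l2 : ((((roleSub r3 x).flatMap (roleSub r2)).length : ℕ) : ℝ) ≤ 2500 := by
      have := flatMap_len r2 (roleSub r3 x)
      have h4 := subLen r3 x
      exact_mod_cast (by omega : ((roleSub r3 x).flatMap (roleSub r2)).length ≤ 2500)
    have l3 := mul_le_mul_of_nonneg_left l1 hC
    have l4 := mul_le_mul_of_nonneg_left l2 hC
    rw [abs_le]
    constructor <;> linarith [h1.1, h1.2, h2.1, h2.2, h3.1, h3.2]
  set L := lam ^ q.length with hL
  have hLpos : 0 < L := pow_pos lam_pos _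
  set w := wid k z with hw
  have hwlo : (1 / 60 : ℝ) ≤ w := wid_lo k z
  have hwpos : 0 < w := wid_pos k z
  have hLw : 0 < L * w := mul_pos hLpos hwpos
  obtain ⟨hm, hM⟩ := h z
  set θ := ℓ q z / (L * w) with hθ
  have hθz : ℓ q z = θ * (L * w) := by rw [hθ]; field_simp
  have hmθ : m ≤ θ := by rw [hθ, le_div_iff₀ hLw]; exact hm
  have hθM : θ ≤ M := by rw [hθ, div_le_iff₀ hLw]; exact hM
  have hlen : (q ++ [r1, r2, r3]).length = q.length + 3 := by simp
  have hL3 : lam ^ (q.length + 3) = L * lam ^ 3 := by rw [pow_add]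
  have h3pos : 0 < lam ^ 3 := pow_pos lam_pos 3
  have h3ge : 1 ≤ lam ^ 3 := one_le_pow₀ one_lt_lam.le
  refine ⟨m + 1 / 4000 * (θ - m) - 60 * (2551 * C) * (lam ^ (q.length + 3))⁻¹,
    M - 1 / 4000 * (M - θ) + 60 * (2551 * C) * (lam ^ (q.length + 3))⁻¹, ?_, ?_⟩
  · intro x
    have h1 := h.word' (pathSub [r1, r2, r3] x) z (hz' x)
    have h2 := path_eig k i [r1, r2, r3] hk x
    have h3 : [r1, r2, r3].length = 3 := rfl
    rw [h3] at h2
    rw [h2, ← hL, ← hw, hθz] at h1
    have h4 := abs_le.1 (herr x)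
    have hxlt := wid_lt i x
    have hxpos := wid_pos i x
    have hxlo := wid_lo i x
    set W := lam ^ 3 * wid i x with hW
    have hWlt : W < 52 := by
      have := lam3_lt
      nlinarith
    have hWpos : 0 < W := mul_pos h3pos hxpos
    have h5 : lam ^ (q.length + 3) * wid i x = L * W := by rw [hL3, hW]; ring
    have h6 : 60 * (2551 * C) * (lam ^ (q.length + 3))⁻¹ * (lam ^ (q.length + 3) * wid i x) =
        2551 * C * (60 * wid i x) := by
      have : 0 < lam ^ (q.length + 3) := pow_pos lam_pos _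
      field_simp
    have h7 : 2551 * C ≤ 2551 * C * (60 * wid i x) := by nlinarith
    have h8 : 1 / 4000 * W ≤ w := by linarith
    rw [hlen]
    constructor
    · rw [sub_mul, h6, h5]
      have h9 : (θ - m) * L * (1 / 4000 * W) ≤ (θ - m) * L * w :=
        mul_le_mul_of_nonneg_left h8 (mul_nonneg (by linarith) hLpos.le)
      linarith [h1.1, h4.1]
    · rw [add_mul, h6, h5]
      have h9 : (M - θ) * L * (1 / 4000 * W) ≤ (M - θ) * L * w :=
        mul_le_mul_of_nonneg_left h8 (mul_nonneg (by linarith) hLpos.le)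
      linarith [h1.2, h4.2]
  · have h9 : (lam ^ (q.length + 3))⁻¹ ≤ L⁻¹ := by
      rw [hL3]
      refine inv_anti₀ hLpos ?_
      nlinarith
    have h10 : C * (lam ^ (q.length + 3))⁻¹ ≤ C * L⁻¹ := mul_le_mul_of_nonneg_left h9 hC
    have h11 : 0 ≤ C * L⁻¹ := mul_nonneg hC (inv_pos.2 hLpos).le
    nlinarith

/-- The contraction rate. -/
def bet : ℝ := 1 - 1 / 24000

theorem bet_pos : 0 < bet := by norm_num [bet]
theorem bet_lt : bet < 1 := by norm_num [bet]
theorem bet3 : (1 - 1 / 8000 : ℝ) ≤ bet ^ 3 := by norm_num [bet]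
theorem bet_inv (n : ℕ) : (lam ^ n)⁻¹ ≤ bet ^ n := by
  rw [← inv_pow]
  refine pow_le_pow_left₀ (inv_pos.2 lam_pos).le ?_ n
  have h1 : lam⁻¹ ≤ 1 / 3 := by
    rw [inv_le_comm₀ lam_pos (by norm_num)]
    have := lam_gt
    norm_num
    linarith
  have h2 : (1 / 3 : ℝ) ≤ bet := by norm_num [bet]
  linarith

theorem osc {ℓ : List (Fin 13) → Fin 4 → ℝ} {C B : ℝ} (hC : 0 ≤ C) (hB : 0 ≤ B)
    {p : List (Fin 13)} (hr : Rec ℓ C p) {j : Fin 3} (h0 : Bd ℓ [] j (-B) B) (n : ℕ) :
    ∀ q, q <+: p → q.length = n → ∀ k, RPath j k q →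
      ∃ m M, Bd ℓ q k m M ∧ M - m ≤ (4 * B + 4000000000 * C) * bet ^ n := by
  induction n using Nat.strong_induction_on with
  | _ n ih =>
    intro q hq hn k hk
    have hbp : 0 < bet ^ n := pow_pos bet_pos n
    by_cases h3 : n < 3
    · have h1 := nest hC hr h0 q k hk (by simpa using hq)
      simp only [List.nil_append, List.length_nil, pow_zero, inv_one] at h1
      refine ⟨_, _, h1, ?_⟩
      have h2 : 0 < (lam ^ q.length)⁻¹ := inv_pos.2 (pow_pos lam_pos _)
      have h4 : (1 / 2 : ℝ) ≤ bet ^ n := by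
        interval_cases n <;> norm_num [bet]
      nlinarith
    · obtain ⟨q', u, rfl, hu⟩ : ∃ q' u, q = q' ++ u ∧ u.length = 3 :=
        ⟨q.take (n - 3), q.drop (n - 3), (List.take_append_drop _ _).symm, by
          rw [List.length_drop]; omega⟩
      obtain ⟨r1, r2, r3, rfl⟩ := List.length_eq_three.1 hu
      obtain ⟨k', hk1, hk2⟩ := split hk
      have hlen : q'.length = n - 3 := by
        rw [List.length_append] at hn; simp at hn; omega
      obtain ⟨m, M, h1, h2⟩ := ih (n - 3) (by omega) q' ((List.prefix_append _ _).trans hq)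
        hlen k' hk1
      obtain ⟨m', M', h4, h5⟩ := step3 hC hr hq hk2 h1
      refine ⟨m', M', h4, h5.trans ?_⟩
      rw [hlen]
      obtain ⟨t, rfl⟩ : ∃ t, n = t + 3 := ⟨n - 3, by omega⟩
      simp only [Nat.add_sub_cancel] at *
      have h6 := bet_inv t
      have h7 : 0 < bet ^ t := pow_pos bet_pos t
      have h8 := bet3
      have h9 : bet ^ (t + 3) = bet ^ t * bet ^ 3 := pow_add _ _ _
      rw [h9]
      have h10 : C * (lam ^ t)⁻¹ ≤ C * bet ^ t := mul_le_mul_of_nonneg_left h6 hC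
      have h11 : (4 * B + 4000000000 * C) * bet ^ t * (1 - 1 / 8000) ≤
          (4 * B + 4000000000 * C) * bet ^ t * bet ^ 3 :=
        mul_le_mul_of_nonneg_left h8 (mul_nonneg (by positivity) h7.le)
      have h12 : 0 ≤ B * bet ^ t := mul_nonneg hB h7.le
      have h13 : 0 ≤ C * bet ^ t := mul_nonneg hC h7.le
      nlinarith

theorem clamp_err {c e r : ℝ} (h1 : r ≤ c⁻¹) (h2 : c - e ≤ r) (he : 0 ≤ e) :
    |max c (min c⁻¹ r) - r| ≤ e := by
  rw [min_eq_right h1, abs_le]
  constructor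
  · have := le_max_right c r
    linarith
  · have := max_le (show c ≤ r + e by linarith) (show r ≤ r + e by linarith)
    linarith

theorem clamp_lip (c r r' : ℝ) : |max c (min c⁻¹ r) - max c (min c⁻¹ r')| ≤ |r - r'| := by
  have h1 := abs_max_sub_max_le_max c (min c⁻¹ r) c (min c⁻¹ r')
  have h2 := abs_min_sub_min_le_max c⁻¹ r c⁻¹ r'
  rw [sub_self, abs_zero, max_eq_right (abs_nonneg (min c⁻¹ r - min c⁻¹ r'))] at h1
  rw [sub_self, abs_zero, max_eq_right (abs_nonneg (r - r'))] at h2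
  exact h1.trans h2

/-- The normalised value at the letter `0`. -/
def rr (ℓ : List (Fin 13) → Fin 4 → ℝ) (p : List (Fin 13)) : ℝ :=
  ℓ p 0 / (lam ^ p.length * wid (tgtOf p) 0)

theorem rr_mem {ℓ : List (Fin 13) → Fin 4 → ℝ} {p : List (Fin 13)} {m M : ℝ}
    (h : Bd ℓ p (tgtOf p) m M) : m ≤ rr ℓ p ∧ rr ℓ p ≤ M := by
  have h1 : 0 < lam ^ p.length * wid (tgtOf p) 0 := mul_pos (pow_pos lam_pos _) (wid_pos _ _)
  exact ⟨(le_div_iff₀ h1).2 (h 0).1, (div_le_iff₀ h1).2 (h 0).2⟩

end DoebAux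

open DoebAux in
theorem stmt_Doeb : Stmt_Doeb := by
  intro C c₀ C₀ hc₀
  set C' := |C| with hC'
  have hC'0 : 0 ≤ C' := abs_nonneg C
  set B := 60 * C' with hB
  have hB0 : 0 ≤ B := by positivity
  set Q' := 4 * B + 4000000000 * C' with hQ'
  have hQ'0 : 0 ≤ Q' := by positivity
  set c₁ := min c₀ (B + 30 * C' + 1)⁻¹ with hc₁
  have hc₁pos : 0 < c₁ := lt_min hc₀ (by positivity)
  have hc₁le : c₁ ≤ (B + 30 * C' + 1)⁻¹ := min_le_right _ _
  have hc₁inv : B + 30 * C' + 1 ≤ c₁⁻¹ := by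
    rw [le_inv_comm₀ (by positivity) hc₁pos]; exact hc₁le
  have hc₁1 : c₁ ≤ c₁⁻¹ := by
    have h1 : 1 ≤ c₁⁻¹ := by linarith
    have h2 : c₁ ≤ 1 := by
      rw [← inv_inv c₁]; exact inv_le_one_of_one_le₀ h1
    linarith
  refine ⟨Q' + 30 * C' + 60 * |C₀| + C' + c₁⁻¹, bet, c₁, by positivity, bet_pos, bet_lt, hc₁pos,
    fun ℓ hℓ => ⟨fun p => max c₁ (min c₁⁻¹ (rr ℓ p)), ?_⟩⟩
  intro j i p hp hrec hlow
  have hlo : ∀ q : List (Fin 13), c₁ ≤ max c₁ (min c₁⁻¹ (rr ℓ q)) := fun q => le_max_left _ _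
  have hhi : ∀ q : List (Fin 13), max c₁ (min c₁⁻¹ (rr ℓ q)) ≤ c₁⁻¹ :=
    fun q => max_le hc₁1 (min_le_left _ _)
  have hRec : Rec ℓ C' p := fun q r hq x => (hrec q r hq x).trans (le_abs_self C)
  have h0 : Bd ℓ [] j (-B) B := by
    intro y
    have h1 := abs_le.1 ((hℓ y).trans (le_abs_self C))
    have h2 := wid_lo j y
    have h3 : C' ≤ B * wid j y := by rw [hB]; nlinarith
    simp only [List.length_nil, pow_zero, one_mul]
    constructor <;> linarith [h1.1, h1.2]
  have hosc := osc hC'0 hB0 hRec h0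
  -- bounds for prefixes
  have hup : ∀ q k, q <+: p → RPath j k q → Bd ℓ q k (-(B + 30 * C')) (B + 30 * C') := by
    intro q k hq hk
    have h1 := nest hC'0 hRec h0 q k hk (by simpa using hq)
    simp only [List.nil_append, List.length_nil, pow_zero, inv_one] at h1
    have h2 : 0 < (lam ^ q.length)⁻¹ := inv_pos.2 (pow_pos lam_pos _)
    refine h1.mono ?_ ?_ <;> nlinarith
  refine ⟨hlo p, hhi p, ?_, ?_⟩
  · intro q hq
    show |max c₁ (min c₁⁻¹ (rr ℓ p)) - max c₁ (min c₁⁻¹ (rr ℓ q))| ≤ _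
    rcases eq_or_ne q [] with rfl | hq0
    · have h1 := hlo p
      have h2 := hhi p
      have h3 := hlo []
      have h4 := hhi []
      simp only [List.length_nil, pow_zero, mul_one]
      rw [abs_le]
      have h5 : 0 ≤ |C₀| := abs_nonneg _
      constructor <;> linarith
    · have hp0 : p ≠ [] := by
        rintro rfl
        exact hq0 (List.prefix_nil.1 hq)
      obtain ⟨u, rfl⟩ := hq
      obtain ⟨k, hk1, hk2⟩ := split hp
      obtain ⟨m, M, h1, h2⟩ := hosc q.length q (List.prefix_append _ _) rfl k hk1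
      have h3 := nest hC'0 hRec h1 u i hk2 (List.prefix_refl _)
      have hk : tgtOf q = k := tgtOf_eq hk1 hq0
      have hi : tgtOf (q ++ u) = i := tgtOf_eq hp hp0
      rw [← hk] at h1
      rw [← hi] at h3
      have h4 := rr_mem h1
      have h5 := rr_mem h3
      refine (clamp_lip _ _ _).trans ?_
      have h6 : 0 < (lam ^ q.length)⁻¹ := inv_pos.2 (pow_pos lam_pos _)
      have h7 : 0 < (lam ^ (q ++ u).length)⁻¹ := inv_pos.2 (pow_pos lam_pos _)
      have h8 := bet_inv q.length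
      have h9 : 0 < bet ^ q.length := pow_pos bet_pos _
      have h10 : 30 * C' * ((lam ^ q.length)⁻¹ - (lam ^ (q ++ u).length)⁻¹) ≤
          30 * C' * bet ^ q.length := by
        refine mul_le_mul_of_nonneg_left (by linarith) (by positivity)
      have h11 : |rr ℓ (q ++ u) - rr ℓ q| ≤ Q' * bet ^ q.length + 30 * C' * bet ^ q.length := by
        rw [abs_le]
        constructor <;> linarith [h4.1, h4.2, h5.1, h5.2]
      refine h11.trans ?_
      have h12 : 0 ≤ |C₀| := abs_nonneg _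
      have h13 : 0 < c₁⁻¹ := inv_pos.2 hc₁pos
      linarith [mul_nonneg h12 h9.le, mul_nonneg hC'0 h9.le, mul_pos h13 h9]
  · intro x
    show |ℓ p x - max c₁ (min c₁⁻¹ (rr ℓ p)) * lam ^ p.length * wid i x| ≤ _
    rcases eq_or_ne p [] with rfl | hp0
    · have h1 := hlo []
      have h2 := hhi []
      have h3 := abs_le.1 ((hℓ x).trans (le_abs_self C))
      have h4 := wid_pos i x
      have h5 := wid_lt i x
      simp only [List.length_nil, pow_zero, mul_one]
      have h6 : 0 ≤ |C₀| := abs_nonneg _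
      have h7 : 0 < max c₁ (min c₁⁻¹ (rr ℓ [])) := lt_of_lt_of_le hc₁pos h1
      have h8 : max c₁ (min c₁⁻¹ (rr ℓ [])) * wid i x ≤ c₁⁻¹ := by nlinarith
      have h9 : 0 ≤ max c₁ (min c₁⁻¹ (rr ℓ [])) * wid i x := by positivity
      rw [abs_le]
      constructor <;> linarith [h3.1, h3.2]
    · obtain ⟨m, M, h1, h2⟩ := hosc p.length p (List.prefix_refl _) rfl i hp
      have hi : tgtOf p = i := tgtOf_eq hp hp0
      have h3 := hup p i (List.prefix_refl _) hp
      have h1' := h1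
      have h3' := h3
      rw [← hi] at h1' h3'
      have h4 := rr_mem h1'
      have h5 := rr_mem h3'
      set n := p.length
      have hLpos : 0 < lam ^ n := pow_pos lam_pos n
      have h6 := bet_inv n
      have h7 : 0 < bet ^ n := pow_pos bet_pos n
      -- lower bound of rr
      have h8 : c₁ - 60 * |C₀| * (lam ^ n)⁻¹ ≤ rr ℓ p := by
        have h9 := hlow p (List.prefix_refl _) 0
        have hw0 := wid_lo (tgtOf p) 0
        have hw1 := wid_lt (tgtOf p) 0
        have hw2 := wid_pos (tgtOf p) 0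
        have h10 : 0 < lam ^ n * wid (tgtOf p) 0 := mul_pos hLpos hw2
        have h11 : c₁ ≤ c₀ := min_le_left _ _
        unfold rr
        rw [le_div_iff₀ h10]
        have h12 : (c₁ - 60 * |C₀| * (lam ^ n)⁻¹) * (lam ^ n * wid (tgtOf p) 0) =
            c₁ * (lam ^ n * wid (tgtOf p) 0) - 60 * |C₀| * wid (tgtOf p) 0 := by
          field_simp
        rw [h12]
        have h13 : c₁ * (lam ^ n * wid (tgtOf p) 0) ≤ c₀ * lam ^ n := by
          have h14 : lam ^ n * wid (tgtOf p) 0 ≤ lam ^ n := by nlinarith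
          calc c₁ * (lam ^ n * wid (tgtOf p) 0) ≤ c₁ * lam ^ n :=
                mul_le_mul_of_nonneg_left h14 hc₁pos.le
            _ ≤ c₀ * lam ^ n := mul_le_mul_of_nonneg_right h11 hLpos.le
        have h15 : C₀ ≤ 60 * |C₀| * wid (tgtOf p) 0 := by
          have h16 := le_abs_self C₀
          have h17 := abs_nonneg C₀
          nlinarith
        linarith
      have h9 := clamp_err (show rr ℓ p ≤ c₁⁻¹ by linarith [h5.2]) h8
        (by positivity)
      set κ := max c₁ (min c₁⁻¹ (rr ℓ p))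
      have h10 := h1 x
      have hw1 := wid_lt i x
      have hw2 := wid_pos i x
      have h11 : 0 < lam ^ n * wid i x := mul_pos hLpos hw2
      have h12 : |ℓ p x - rr ℓ p * (lam ^ n * wid i x)| ≤ (M - m) * (lam ^ n * wid i x) := by
        have h13 := mul_le_mul_of_nonneg_right h4.1 h11.le
        have h14 := mul_le_mul_of_nonneg_right h4.2 h11.le
        rw [abs_le]
        constructor <;> linarith [h10.1, h10.2]
      have h13 : |rr ℓ p * (lam ^ n * wid i x) - κ * lam ^ n * wid i x| ≤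
          60 * |C₀| * (lam ^ n)⁻¹ * (lam ^ n * wid i x) := by
        have e : rr ℓ p * (lam ^ n * wid i x) - κ * lam ^ n * wid i x =
            (rr ℓ p - κ) * (lam ^ n * wid i x) := by ring
        rw [e, abs_mul, abs_of_pos h11, abs_sub_comm]
        exact mul_le_mul_of_nonneg_right h9 h11.le
      have h14 : (M - m) * (lam ^ n * wid i x) ≤ Q' * bet ^ n * lam ^ n := by
        calc (M - m) * (lam ^ n * wid i x) ≤ (Q' * bet ^ n) * (lam ^ n * wid i x) :=
              mul_le_mul_of_nonneg_right h2 h11.le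
          _ ≤ (Q' * bet ^ n) * lam ^ n := by
              refine mul_le_mul_of_nonneg_left ?_ (by positivity)
              nlinarith
      have h15 : 60 * |C₀| * (lam ^ n)⁻¹ * (lam ^ n * wid i x) ≤
          60 * |C₀| * bet ^ n * lam ^ n := by
        calc 60 * |C₀| * (lam ^ n)⁻¹ * (lam ^ n * wid i x) ≤
              60 * |C₀| * bet ^ n * (lam ^ n * wid i x) := by
              refine mul_le_mul_of_nonneg_right ?_ h11.le
              exact mul_le_mul_of_nonneg_left h6 (by positivity)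
          _ ≤ 60 * |C₀| * bet ^ n * lam ^ n := by
              refine mul_le_mul_of_nonneg_left ?_ (by positivity)
              nlinarith
      have h16 : |ℓ p x - κ * lam ^ n * wid i x| ≤
          Q' * bet ^ n * lam ^ n + 60 * |C₀| * bet ^ n * lam ^ n := by
        calc |ℓ p x - κ * lam ^ n * wid i x| ≤ |ℓ p x - rr ℓ p * (lam ^ n * wid i x)| +
              |rr ℓ p * (lam ^ n * wid i x) - κ * lam ^ n * wid i x| := abs_sub_le _ _ _
          _ ≤ _ := by linarith
      refine h16.trans ?_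
      rw [mul_pow]
      have h17 : 0 < bet ^ n * lam ^ n := mul_pos h7 hLpos
      have h18 : 0 < c₁⁻¹ := inv_pos.2 hc₁pos
      linarith [mul_nonneg hC'0 h17.le, mul_pos h18 h17]

end Pool.Agent.CircleShift
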