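import Pool.Agent.Work.MP_0fc146_gt_helper78.T

/-!
# Block Pieces of MP_0fc146_gt
-/

noncomputable section

namespace Pool.Agent.CircleShift

namespace PiecesAux
open SubAux TAux

/-- A part of an image of a generator, or the inverse of such a part. -/
def Pc (p : List (Fin 13)) (w : List (Fin 4 × Bool)) : Prop :=
  ∃ x : List (Fin 4) × Bool, (∃ a : Fin 4, x.1 <:+: pathSub p a) ∧ w = sgn x

theorem infix_posW {w : List (Fin 4 × Bool)} {l : List (Fin 4)} (h : w <:+: posW l) :
    ∃ l', l' <:+: l ∧ w = posW l' := by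
  obtain ⟨s, t, h⟩ := h
  obtain ⟨l1, l2, rfl, h1, h2⟩ := List.map_eq_append_iff.1 h.symm
  obtain ⟨l3, l4, rfl, h3, h4⟩ := List.map_eq_append_iff.1 h1
  exact ⟨l4, ⟨l3, l2, rfl⟩, h4.symm⟩

theorem Pc.sub {p : List (Fin 13)} {w w' : List (Fin 4 × Bool)} (h : Pc p w) (hw : w' <:+: w) :
    Pc p w' := by
  obtain ⟨⟨v, b⟩, ⟨a, ha⟩, rfl⟩ := h
  cases b with
  | true =>
    obtain ⟨l', h1, h2⟩ := infix_posW (show w' <:+: posW v from hw)
    exact ⟨(l', true), ⟨a, h1.trans ha⟩, h2⟩
  | false =>
    have h0 : w' <:+: FreeGroup.invRev (posW v) := hw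
    obtain ⟨s, t, h1⟩ := h0
    have h2 : FreeGroup.invRev w' <:+: posW v := by
      refine ⟨FreeGroup.invRev t, FreeGroup.invRev s, ?_⟩
      rw [← FreeGroup.invRev_invRev (L₁ := posW v), ← h1, FreeGroup.invRev_append,
        FreeGroup.invRev_append, List.append_assoc]
    obtain ⟨l', h3, h4⟩ := infix_posW h2
    refine ⟨(l', false), ⟨a, h3.trans ha⟩, ?_⟩
    show w' = FreeGroup.invRev (posW l')
    rw [← h4, FreeGroup.invRev_invRev]

theorem Pc.sh {p : List (Fin 13)} {w : List (Fin 4 × Bool)} (h : Pc p w) : SH w := by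
  obtain ⟨x, _, rfl⟩ := h
  exact SH_sgn x

/-- The word is the concatenation of at most `k` pieces. -/
def Dec (p : List (Fin 13)) (k : ℕ) (w : List (Fin 4 × Bool)) : Prop :=
  ∃ Ls : List (List (Fin 4 × Bool)), Ls.length ≤ k ∧ (∀ v ∈ Ls, Pc p v) ∧ Ls.flatten = w

theorem Dec.tail {p : List (Fin 13)} {k : ℕ} {y : Fin 4 × Bool} {w : List (Fin 4 × Bool)}
    (h : Dec p k (y :: w)) : Dec p k w := by
  obtain ⟨Ls, h1, h2, h3⟩ := h
  induction Ls generalizing k with
  | nil => simp at h3
  | cons v Ls ih =>
    cases v with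
    | nil =>
      obtain ⟨Ls', h4, h5, h6⟩ := ih (k := Ls.length) le_rfl
        (fun v hv => h2 v (List.mem_cons_of_mem _ hv)) (by simpa using h3)
      rw [List.length_cons] at h1
      exact ⟨Ls', by omega, h5, h6⟩
    | cons x v =>
      rw [List.flatten_cons, List.cons_append] at h3
      obtain ⟨rfl, h3⟩ := List.cons.inj h3
      refine ⟨v :: Ls, h1, ?_, by simpa using h3⟩
      intro v' hv'
      rcases List.mem_cons.1 hv' with rfl | hv'
      · exact (h2 (x :: v') List.mem_cons_self).sub ⟨[x], [], by simp⟩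
      · exact h2 v' (List.mem_cons_of_mem _ hv')

theorem Dec.dropLast {p : List (Fin 13)} {k : ℕ} {y : Fin 4 × Bool} {w : List (Fin 4 × Bool)}
    (h : Dec p k (w ++ [y])) : Dec p k w := by
  obtain ⟨Ls, h1, h2, h3⟩ := h
  induction Ls using List.reverseRecOn generalizing k with
  | nil => simp at h3
  | append_singleton Ls v ih =>
    rw [List.length_append, List.length_singleton] at h1
    rw [List.flatten_append] at h3
    have hv : [v].flatten = v := by simp
    rw [hv] at h3
    rcases List.eq_nil_or_concat' v with rfl | ⟨v', x, rfl⟩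
    · obtain ⟨Ls', h4, h5, h6⟩ := ih (k := Ls.length) le_rfl
        (fun v hv => h2 v (by simp [hv])) (by simpa using h3)
      exact ⟨Ls', by omega, h5, h6⟩
    · rw [← List.append_assoc] at h3
      obtain ⟨h4, h5⟩ := List.append_inj' h3 rfl
      refine ⟨Ls ++ [v'], by rw [List.length_append, List.length_singleton]; omega, ?_, ?_⟩
      · intro w' hw'
        rw [List.mem_append, List.mem_singleton] at hw'
        rcases hw' with hw' | rfl
        · exact h2 w' (by simp [hw'])
        · exact (h2 (w' ++ [x]) (by simp)).sub ⟨[], [x], by simp⟩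
      · rw [List.flatten_append]; simpa using h4

/-- Splitting at a change of sign. -/
theorem Dec.split {p : List (Fin 13)} {k : ℕ} {u v : List (Fin 4 × Bool)} {x y : Fin 4 × Bool}
    (hxy : x.2 ≠ y.2) (h : Dec p k ((u ++ [x]) ++ (y :: v))) :
    ∃ k1 k2, k1 + k2 ≤ k ∧ Dec p k1 (u ++ [x]) ∧ Dec p k2 (y :: v) := by
  obtain ⟨Ls, h1, h2, h3⟩ := h
  induction Ls generalizing k u with
  | nil => simp at h3
  | cons w Ls ih =>
    rw [List.flatten_cons] at h3
    rw [List.length_cons] at h1
    rcases List.append_eq_append_iff.1 h3 with ⟨c, h4, h5⟩ | ⟨c, h4, h5⟩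
    · -- `u ++ [x] = w ++ c`
      rcases List.eq_nil_or_concat' c with rfl | ⟨c', x', rfl⟩
      · rw [List.append_nil] at h4
        refine ⟨1, Ls.length, by omega, ⟨[w], by simp, ?_, by simp [h4]⟩, ⟨Ls, le_rfl, ?_, ?_⟩⟩
        · intro v' hv'
          rw [List.mem_singleton] at hv'
          exact h2 v' (by simp [hv'])
        · exact fun v' hv' => h2 v' (List.mem_cons_of_mem _ hv')
        · simpa using h5
      · rw [← List.append_assoc] at h4
        obtain ⟨h6, h7⟩ := List.append_inj' h4 rfl
        have h7' : x = x' := by simpa using h7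
        subst h7'
        obtain ⟨k1, k2, h8, ⟨L1, h9, h10, h11⟩, h12⟩ := ih (k := Ls.length) (u := c') le_rfl
          (fun v' hv' => h2 v' (List.mem_cons_of_mem _ hv')) (by rw [h5])
        refine ⟨k1 + 1, k2, by omega, ⟨w :: L1, by rw [List.length_cons]; omega, ?_, ?_⟩, h12⟩
        · intro v' hv'
          rcases List.mem_cons.1 hv' with rfl | hv'
          · exact h2 _ (by simp)
          · exact h10 v' hv'
        · rw [List.flatten_cons, h11, h6, List.append_assoc]
    · -- `w = (u ++ [x]) ++ c`
      cases c with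
      | nil =>
        rw [List.append_nil] at h4
        refine ⟨1, Ls.length, by omega, ⟨[w], by simp, ?_, by simp [h4]⟩, ⟨Ls, le_rfl, ?_, ?_⟩⟩
        · intro v' hv'
          rw [List.mem_singleton] at hv'
          exact h2 v' (by simp [hv'])
        · exact fun v' hv' => h2 v' (List.mem_cons_of_mem _ hv')
        · simpa using h5.symm
      | cons y' c =>
        exfalso
        rw [List.cons_append] at h5
        obtain ⟨h6, h7⟩ := List.cons.inj h5
        have h8 := (h2 w (by simp)).sh x (by rw [h4]; simp) y (by rw [h4, h6]; simp)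
        exact hxy h8

theorem Dec.append {p : List (Fin 13)} {k1 k2 : ℕ} {u v : List (Fin 4 × Bool)} (h1 : Dec p k1 u)
    (h2 : Dec p k2 v) : Dec p (k1 + k2) (u ++ v) := by
  obtain ⟨L1, a1, a2, a3⟩ := h1
  obtain ⟨L2, b1, b2, b3⟩ := h2
  refine ⟨L1 ++ L2, by rw [List.length_append]; omega, ?_, by rw [List.flatten_append, a3, b3]⟩
  intro v hv
  rcases List.mem_append.1 hv with hv | hv
  · exact a2 v hv
  · exact b2 v hv

theorem Dec.mono {p : List (Fin 13)} {k1 k2 : ℕ} {u : List (Fin 4 × Bool)} (h1 : Dec p k1 u)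
    (h : k1 ≤ k2) : Dec p k2 u := by
  obtain ⟨L1, a1, a2, a3⟩ := h1
  exact ⟨L1, a1.trans h, a2, a3⟩

theorem main (p : List (Fin 13)) (k : ℕ) (n : ℕ) : ∀ w : List (Fin 4 × Bool), w.length = n →
    Dec p k w → ∃ w', FreeGroup.IsCyclicallyReduced w' ∧ Dec p k w' ∧
      IsConj (FreeGroup.mk w : G) (FreeGroup.mk w') := by
  induction n using Nat.strong_induction_on with
  | _ n ih =>
    intro w hw hd
    by_cases hred : FreeGroup.IsReduced w
    · by_cases hcyc : FreeGroup.IsCyclicallyReduced w
      · exact ⟨w, hcyc, hd, IsConj.refl _⟩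
      · cases w with
        | nil => exact absurd FreeGroup.IsCyclicallyReduced.nil hcyc
        | cons b m =>
          rcases List.eq_nil_or_concat' m with rfl | ⟨m', a, rfl⟩
          · exact absurd FreeGroup.IsCyclicallyReduced.singleton hcyc
          · rw [← List.cons_append, FreeGroup.isCyclicallyReduced_cons_append_iff] at hcyc
            rw [List.cons_append] at hcyc
            have h1 : ¬ (a.1 = b.1 → a.2 = b.2) := fun h => hcyc ⟨hred, h⟩
            push Not at h1
            obtain ⟨h1, h2⟩ := h1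
            have h3 : Dec p k m' := hd.tail.dropLast
            obtain ⟨w', h4, h5, h6⟩ := ih m'.length (by
              rw [← hw]; simp) m' rfl h3
            refine ⟨w', h4, h5, IsConj.trans ?_ h6⟩
            rw [isConj_iff]
            refine ⟨(FreeGroup.mk [b])⁻¹, ?_⟩
            have h7 : (FreeGroup.mk [a] : G) = (FreeGroup.mk [b])⁻¹ := by
              rw [FreeGroup.inv_mk]
              congr 1
              simp only [FreeGroup.invRev, List.map_cons, List.map_nil, List.reverse_cons,
                List.reverse_nil, List.nil_append]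
              congr 1
              ext1
              · exact h1
              · show a.2 = !b.2
                cases ha : a.2 <;> cases hb : b.2 <;> simp_all
            have h8 : (FreeGroup.mk (b :: (m' ++ [a])) : G) =
                FreeGroup.mk [b] * FreeGroup.mk m' * FreeGroup.mk [a] := by
              rw [FreeGroup.mul_mk, FreeGroup.mul_mk]; simp
            rw [h8, h7]
            group
    · have h1 : ∃ w₂, FreeGroup.Red.Step w w₂ := by
        by_contra hcon
        push Not at hcon
        exact hred (FreeGroup.IsReduced.of_forall_not_step hcon)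
      obtain ⟨w₂, hstep⟩ := h1
      have h2 : (FreeGroup.mk w : G) = FreeGroup.mk w₂ := Quot.sound hstep
      have h3 : w₂.length < n := by
        have := hstep.length
        omega
      have h4 : Dec p k w₂ := by
        cases hstep with
        | @not L₁ L₂ x b =>
          have h5 : L₁ ++ (x, b) :: (x, !b) :: L₂ = (L₁ ++ [(x, b)]) ++ ((x, !b) :: L₂) := by simp
          rw [h5] at hd
          obtain ⟨k1, k2, h6, h7, h8⟩ := hd.split (by simp)
          exact (h7.dropLast.append h8.tail).mono h6
      rw [h2]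
      exact ih _ h3 w₂ rfl h4

theorem pathAut_mk (p : List (Fin 13)) (w : List (Fin 4 × Bool)) :
    pathAut p (FreeGroup.mk w) =
      FreeGroup.mk ((w.map (fun x => sgn (pathSub p x.1, x.2))).flatten) := by
  induction w with
  | nil => rw [← FreeGroup.one_eq_mk, map_one]; simp [FreeGroup.one_eq_mk]
  | cons x w ih =>
    have h1 : (FreeGroup.mk (x :: w) : G) = FreeGroup.mk [x] * FreeGroup.mk w := by
      rw [FreeGroup.mul_mk]; rfl
    rw [h1, map_mul, ih, List.map_cons, List.flatten_cons, ← FreeGroup.mul_mk]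
    congr 1
    rcases x with ⟨i, b⟩
    cases b with
    | true => exact pathAut_of p i
    | false =>
      have h2 : (FreeGroup.mk [(i, false)] : G) = (FreeGroup.of i)⁻¹ := by
        simp [FreeGroup.of, FreeGroup.inv_mk, FreeGroup.invRev]
      rw [h2, map_inv, pathAut_of]
      show (FreeGroup.mk (posW (pathSub p i)))⁻¹ = FreeGroup.mk (FreeGroup.invRev _)
      rw [FreeGroup.inv_mk]

end PiecesAux

open PiecesAux TAux in
theorem stmt_Pieces : Stmt_Pieces := by
  intro p g
  have h0 : Dec p g.norm ((g.toWord.map (fun x => sgn (pathSub p x.1, x.2))).flatten) := by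
    refine ⟨_, ?_, ?_, rfl⟩
    · rw [List.length_map]; exact le_rfl
    · intro v hv
      obtain ⟨x, _, rfl⟩ := List.mem_map.1 hv
      exact ⟨_, ⟨x.1, List.infix_refl _⟩, rfl⟩
  obtain ⟨w', h1, ⟨Ls, h2, h3, h4⟩, h5⟩ := main p g.norm _ _ rfl h0
  rw [← pathAut_mk, FreeGroup.mk_toWord] at h5
  have h6 : (FreeGroup.mk w' : G).toWord = w' := by
    rw [FreeGroup.toWord_mk, h1.isReduced.reduce_eq]
  -- choose the signed parts
  have h7 : ∃ L : List (List (Fin 4) × Bool), L.map sgn = Ls ∧
      ∀ x ∈ L, ∃ a : Fin 4, x.1 <:+: pathSub p a := by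
    clear h2 h4
    induction Ls with
    | nil => exact ⟨[], rfl, by simp⟩
    | cons v Ls ih =>
      obtain ⟨L, h8, h9⟩ := ih (fun w hw => h3 w (List.mem_cons_of_mem _ hw))
      obtain ⟨x, h10, h11⟩ := h3 v (by simp)
      refine ⟨x :: L, by rw [List.map_cons, h8, h11], ?_⟩
      intro y hy
      rcases List.mem_cons.1 hy with rfl | hy
      · exact h10
      · exact h9 y hy
  obtain ⟨L, h8, h9⟩ := h7
  refine ⟨FreeGroup.mk w', L, h5, ?_, ?_, ?_, h9⟩
  · unfold CycRed; rw [h6]; exact h1
  · rw [← h8, List.length_map] at h2; exact h2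
  · rw [h6, ← h4, ← h8]; rfl

end Pool.Agent.CircleShift
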