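import Pool.Agent.Work.MP_0fc146_gt_helper78.Doeb

/-!
# Block T of MP_0fc146_gt: the limit lemma
-/

noncomputable section

namespace Pool.Agent.CircleShift

namespace TAux
open SubAux DoebAux

/-- Signed word. -/
def sgn (x : List (Fin 4) × Bool) : List (Fin 4 × Bool) :=
  if x.2 then posW x.1 else FreeGroup.invRev (posW x.1)

theorem SH_posW (l : List (Fin 4)) : SH (posW l) := by
  intro x hx y hy
  simp only [posW, List.mem_map] at hx hy
  obtain ⟨_, _, rfl⟩ := hx
  obtain ⟨_, _, rfl⟩ := hy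
  rfl

theorem SH_invRev (l : List (Fin 4)) : SH (FreeGroup.invRev (posW l)) := by
  intro x hx y hy
  simp only [posW, FreeGroup.invRev, List.mem_reverse, List.mem_map] at hx hy
  obtain ⟨_, ⟨_, _, rfl⟩, rfl⟩ := hx
  obtain ⟨_, ⟨_, _, rfl⟩, rfl⟩ := hy
  rfl

theorem SH_sgn (x : List (Fin 4) × Bool) : SH (sgn x) := by
  unfold sgn
  split
  · exact SH_posW _
  · exact SH_invRev _

theorem wlen_invRev (j : Fin 3) (w : List (Fin 4 × Bool)) :
    wlen j (FreeGroup.invRev w) = wlen j w := by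
  simp [wlen, FreeGroup.invRev, List.sum_reverse, Function.comp_def]

theorem wlen_sgn (j : Fin 3) (x : List (Fin 4) × Bool) : wlen j (sgn x) = wlen j (posW x.1) := by
  unfold sgn
  split
  · rfl
  · exact wlen_invRev _ _

theorem isReduced_posW (l : List (Fin 4)) : FreeGroup.IsReduced (posW l) := by
  induction l with
  | nil => simp [posW]
  | cons x l ih =>
    cases l with
    | nil => simp [posW]
    | cons y l =>
      rw [posW_cons]
      rw [posW_cons] at ih ⊢
      exact FreeGroup.isReduced_cons_cons.2 ⟨fun _ => rfl, ih⟩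

theorem wlen_nonneg (j : Fin 3) (w : List (Fin 4 × Bool)) : 0 ≤ wlen j w := by
  induction w with
  | nil => simp [wlen]
  | cons x w ih => rw [wlen_cons]; have := wid_pos j x.1; linarith

theorem wlen_infix (j : Fin 3) {v w : List (Fin 4)} (h : v <:+: w) :
    wlen j (posW v) ≤ wlen j (posW w) := by
  obtain ⟨s, t, rfl⟩ := h
  rw [posW_append, posW_append, wlen_append, wlen_append]
  have := wlen_nonneg j (posW s)
  have := wlen_nonneg j (posW t)
  linarith

theorem len_le (j : Fin 3) (l : List (Fin 4)) : (l.length : ℝ) ≤ 60 * wlen j (posW l) := by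
  induction l with
  | nil => simp [posW, wlen]
  | cons x l ih =>
    rw [posW_cons, wlen_cons, List.length_cons]
    have := wid_lo j x
    push_cast
    linarith

theorem posW_flatMap (l : List (Fin 4)) (f : Fin 4 → List (Fin 4)) :
    posW (l.flatMap f) = (l.map (fun y => posW (f y))).flatten := by
  induction l with
  | nil => simp [posW]
  | cons x l ih => rw [List.flatMap_cons, posW_append, ih]; simp

theorem wlen_path {j i : Fin 3} {q : List (Fin 13)} (h : RPath j i q) (l : List (Fin 4)) :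
    wlen j (posW (l.flatMap (pathSub q))) = lam ^ q.length * wlen i (posW l) := by
  induction l with
  | nil => simp [posW, wlen]
  | cons x l ih =>
    rw [List.flatMap_cons, posW_append, wlen_append, ih, path_eig j i q h, posW_cons, wlen_cons]
    ring

theorem wlen_pathSub_le {j i : Fin 3} {q : List (Fin 13)} (h : RPath j i q) (x : Fin 4) :
    wlen j (posW (pathSub q x)) ≤ lam ^ q.length := by
  rw [path_eig j i q h]
  have h1 := wid_lt i x
  have h2 : 0 < lam ^ q.length := pow_pos lam_pos _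
  nlinarith

theorem prefix_flatMap {α β : Type} (f : α → List β) (l : List α) (v : List β)
    (h : v <+: l.flatMap f) : ∃ l' t, v = l'.flatMap f ++ t ∧ l' <+: l ∧
      (t = [] ∨ ∃ y ∈ l, t <:+: f y) := by
  induction l generalizing v with
  | nil =>
    refine ⟨[], [], ?_, List.prefix_refl _, Or.inl rfl⟩
    simpa using h
  | cons x l ih =>
    obtain ⟨w, hw⟩ := h
    rw [List.flatMap_cons] at hw
    rcases List.append_eq_append_iff.1 hw with ⟨c, h1, h2⟩ | ⟨c, h1, h2⟩
    · exact ⟨[], v, by simp, List.nil_prefix, Or.inr ⟨x, by simp, ⟨[], c, by simp [h1]⟩⟩⟩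
    · obtain ⟨l', t, h3, h4, h5⟩ := ih c ⟨w, h2.symm⟩
      refine ⟨x :: l', t, ?_, ?_, ?_⟩
      · rw [h1, h3, List.flatMap_cons, List.append_assoc]
      · exact List.cons_prefix_cons.2 ⟨rfl, h4⟩
      · rcases h5 with h5 | ⟨y, hy, h5⟩
        · exact Or.inl h5
        · exact Or.inr ⟨y, List.mem_cons_of_mem _ hy, h5⟩

theorem infix_flatMap {α β : Type} (f : α → List β) (l : List α) (v : List β)
    (h : v <:+: l.flatMap f) : ∃ s l' t, v = s ++ (l'.flatMap f ++ t) ∧ l' <:+: l ∧
      (s = [] ∨ ∃ x ∈ l, s <:+: f x) ∧ (t = [] ∨ ∃ y ∈ l, t <:+: f y) := by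
  induction l generalizing v with
  | nil =>
    refine ⟨[], [], [], ?_, List.infix_refl _, Or.inl rfl, Or.inl rfl⟩
    simpa using h
  | cons x l ih =>
    obtain ⟨s0, t0, hw⟩ := h
    rw [List.flatMap_cons, List.append_assoc] at hw
    rcases List.append_eq_append_iff.1 hw with ⟨c, h1, h2⟩ | ⟨c, h1, h2⟩
    · -- `f x = s0 ++ c`, `v ++ t0 = c ++ rest`
      rcases List.append_eq_append_iff.1 h2 with ⟨d, h3, h4⟩ | ⟨d, h3, h4⟩
      · refine ⟨v, [], [], by simp, List.nil_infix, Or.inr ⟨x, by simp, ?_⟩, Or.inl rfl⟩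
        exact ⟨s0, d, by rw [h1, h3]; simp⟩
      · obtain ⟨l', t, h5, h6, h7⟩ := prefix_flatMap f l d ⟨t0, h4.symm⟩
        refine ⟨c, l', t, by rw [h3, h5], ?_, Or.inr ⟨x, by simp, ⟨s0, [], by simp [h1]⟩⟩, ?_⟩
        · exact h6.isInfix.trans (List.infix_cons (List.infix_refl _))
        · rcases h7 with h7 | ⟨y, hy, h7⟩
          · exact Or.inl h7
          · exact Or.inr ⟨y, List.mem_cons_of_mem _ hy, h7⟩
    · -- `s0 = f x ++ c`
      obtain ⟨s, l', t, h3, h4, h5, h6⟩ := ih v ⟨c, t0, by rw [h2]; simp⟩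
      refine ⟨s, l', t, h3, h4.trans (List.infix_cons (List.infix_refl _)), ?_, ?_⟩
      · rcases h5 with h5 | ⟨y, hy, h5⟩
        · exact Or.inl h5
        · exact Or.inr ⟨y, List.mem_cons_of_mem _ hy, h5⟩
      · rcases h6 with h6 | ⟨y, hy, h6⟩
        · exact Or.inl h6
        · exact Or.inr ⟨y, List.mem_cons_of_mem _ hy, h6⟩

section data

variable {nrm len : G → ℝ} {C : ℝ}

theorem C_nonneg (hL : LenData nrm len C) : 0 ≤ C := (hL.nn _).trans (hL.gen 0)

theorem nrm_one (hL : LenData nrm len C) : nrm 1 ≤ 4 * C := by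
  have h1 := hL.mul (FreeGroup.of 0) (FreeGroup.of 0)⁻¹
  rw [mul_inv_cancel] at h1
  have h2 := hL.inv (FreeGroup.of 0)
  have h3 := hL.gen 0
  linarith

theorem near (hL : LenData nrm len C) (hN : NA nrm C) (Ls : List (List (Fin 4 × Bool))) :
    (∀ w ∈ Ls, SH w) → FreeGroup.IsReduced Ls.flatten →
    |nrm (FreeGroup.mk Ls.flatten) - (Ls.map (fun w => nrm (FreeGroup.mk w))).sum| ≤
      C * (Ls.length + 4) := by
  induction Ls using List.reverseRecOn with
  | nil =>
    intro _ _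
    have h1 := nrm_one hL
    have h2 := hL.nn 1
    simp only [List.flatten_nil, List.map_nil, List.sum_nil, List.length_nil, sub_zero]
    rw [← FreeGroup.one_eq_mk, abs_of_nonneg h2]
    push_cast
    linarith
  | append_singleton Ls w ih =>
    intro hS hR
    rw [List.flatten_append] at hR ⊢
    have hw : [w].flatten = w := by simp
    rw [hw] at hR ⊢
    have hR1 : FreeGroup.IsReduced Ls.flatten := List.IsChain.left_of_append hR
    have h1 := abs_le.1 (ih (fun v hv => hS v (by simp [hv])) hR1)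
    have h2 : (FreeGroup.mk Ls.flatten : G).toWord = Ls.flatten := by
      rw [FreeGroup.toWord_mk, hR1.reduce_eq]
    have h3 := hN (FreeGroup.mk Ls.flatten) w (hS w (by simp)) (by rw [h2]; exact hR)
    have h4 := hL.mul (FreeGroup.mk Ls.flatten) (FreeGroup.mk w)
    rw [FreeGroup.mul_mk] at h3 h4
    rw [List.map_append, List.sum_append, List.length_append]
    simp only [List.map_cons, List.map_nil, List.sum_cons, List.sum_nil, List.length_cons,
      List.length_nil]
    have h5 := C_nonneg hL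
    push_cast
    rw [abs_le]
    constructor <;> linarith [h1.1, h1.2]

theorem pos_near (hL : LenData nrm len C) (hN : NA nrm C) (f : Fin 4 → List (Fin 4))
    (l : List (Fin 4)) :
    |nrm (posG (l.flatMap f)) - (l.map (fun y => nrm (posG (f y)))).sum| ≤ C * (l.length + 4) := by
  have h := near hL hN (l.map (fun y => posW (f y))) (by
    intro w hw
    obtain ⟨y, _, rfl⟩ := List.mem_map.1 hw
    exact SH_posW _) (by rw [← posW_flatMap]; exact isReduced_posW _)
  rw [← posW_flatMap, List.map_map, List.length_map] at h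
  exact h

theorem nrm_word (hL : LenData nrm len C) (l : List (Fin 4)) :
    nrm (posG l) ≤ 2 * C * l.length + 4 * C := by
  induction l with
  | nil => rw [posG_nil]; have := nrm_one hL; simp; linarith
  | cons x l ih =>
    rw [posG_cons, List.length_cons]
    have h1 := hL.mul (FreeGroup.of x) (posG l)
    have h2 := hL.gen x
    push_cast
    linarith

theorem nrm_sgn (hL : LenData nrm len C) (x : List (Fin 4) × Bool) :
    |nrm (FreeGroup.mk (sgn x)) - nrm (posG x.1)| ≤ C := by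
  unfold sgn
  have hC := C_nonneg hL
  split
  · rw [show nrm (FreeGroup.mk (posW x.1)) = nrm (posG x.1) from rfl, sub_self, abs_zero]
    exact hC
  · rw [← FreeGroup.inv_mk]
    have h1 := hL.inv (FreeGroup.mk (posW x.1))
    have h2 := hL.inv (FreeGroup.mk (posW x.1))⁻¹
    rw [inv_inv] at h2
    show |nrm (FreeGroup.mk (posW x.1))⁻¹ - nrm (FreeGroup.mk (posW x.1))| ≤ C
    rw [abs_le]
    constructor <;> linarith

/-- The lower bound of the translation length. -/
theorem low (hL : LenData nrm len C) (hN : NA nrm C) (Ls : List (List (Fin 4 × Bool)))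
    (hS : ∀ w ∈ Ls, SH w) (hR : FreeGroup.IsCyclicallyReduced Ls.flatten) :
    (Ls.map (fun w => nrm (FreeGroup.mk w))).sum - C * Ls.length ≤
      len (FreeGroup.mk Ls.flatten) := by
  set S := (Ls.map (fun w => nrm (FreeGroup.mk w))).sum with hSdef
  set g : G := FreeGroup.mk Ls.flatten with hg
  have key : ∀ N : ℕ, N * S - C * (N * Ls.length + 4) ≤ nrm (g ^ N) := by
    intro N
    have e1 : ((List.replicate N Ls).flatten).flatten = (List.replicate N Ls.flatten).flatten := by
      induction N with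
      | zero => simp
      | succ N ih => simp [List.replicate_succ, ih]
    have e2 : (((List.replicate N Ls).flatten).map (fun w => nrm (FreeGroup.mk w))).sum =
        N * S := by
      clear e1
      induction N with
      | zero => simp
      | succ N ih =>
        rw [List.replicate_succ, List.flatten_cons, List.map_append, List.sum_append, ih, ← hSdef]
        push_cast; ring
    have e3 : (((List.replicate N Ls).flatten).length : ℝ) = N * Ls.length := by
      clear e1 e2
      induction N with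
      | zero => simp
      | succ N ih =>
        rw [List.replicate_succ, List.flatten_cons, List.length_append]
        push_cast
        rw [ih]; ring
    have e4 : (FreeGroup.mk ((List.replicate N Ls.flatten).flatten) : G) = g ^ N := by
      clear e1 e2 e3
      induction N with
      | zero => simp [FreeGroup.one_eq_mk]
      | succ N ih =>
        rw [List.replicate_succ, List.flatten_cons, ← FreeGroup.mul_mk, ih, pow_succ']
    have h1 := near hL hN ((List.replicate N Ls).flatten) (by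
      intro w hw
      rw [List.mem_flatten] at hw
      obtain ⟨l, hl, hwl⟩ := hw
      rw [List.eq_of_mem_replicate hl] at hwl
      exact hS w hwl) (by
        rw [e1]; exact (hR.flatten_replicate N).isReduced)
    rw [e1, e2, e3, e4] at h1
    linarith [(abs_le.1 h1).1]
  by_contra hcon
  push Not at hcon
  set ε := (S - C * Ls.length - len g) / 2 with hε
  have hεpos : 0 < ε := by rw [hε]; linarith
  obtain ⟨B, hB⟩ := hL.pow g ε hεpos
  obtain ⟨N, hN1⟩ := exists_nat_gt ((B + 4 * C) / ε)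
  rw [div_lt_iff₀ hεpos] at hN1
  have h1 := key N
  have h2 := hB N
  have h3 : S - C * Ls.length - len g = 2 * ε := by rw [hε]; ring
  have h4 : (N : ℝ) * (S - C * Ls.length - len g) = N * (2 * ε) := by rw [h3]
  nlinarith

end data

/-- The numerical facts on the rate. -/
theorem rate {b₁ : ℝ} (h0 : 0 < b₁) (h1 : b₁ < 1) : ∃ b : ℝ, (1 / 2 : ℝ) ≤ b ∧ b < 1 ∧ b₁ ≤ b ∧
    ∀ n : ℕ, lam ^ (n / 2) ≤ (b * lam) ^ n ∧ lam ^ (n - n / 2) ≤ 2 * (b * lam) ^ n ∧
      b₁ ^ (n / 2) * lam ^ n ≤ 2 * (b * lam) ^ n ∧ 1 ≤ (b * lam) ^ n := by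
  set c := max b₁ (1 / 3) with hc
  have hc1 : c < 1 := max_lt h1 (by norm_num)
  have hc0 : (1 / 3 : ℝ) ≤ c := le_max_right _ _
  have hcb : b₁ ≤ c := le_max_left _ _
  set b := (1 + c) / 2 with hb
  have hb0 : (1 / 2 : ℝ) ≤ b := by rw [hb]; linarith
  have hb1 : b < 1 := by rw [hb]; linarith
  have hcb' : c ≤ b := by rw [hb]; linarith
  have hb2 : c ≤ b ^ 2 := by rw [hb]; nlinarith [sq_nonneg (1 - c)]
  have hbpos : 0 < b := by linarith
  have hlam := lam_gt
  have hlpos := lam_pos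
  have hb2l : 1 ≤ b ^ 2 * lam := by nlinarith
  refine ⟨b, hb0, hb1, hcb.trans hcb', fun n => ?_⟩
  obtain ⟨m, hm⟩ : ∃ m, m = n / 2 := ⟨_, rfl⟩
  rw [← hm]
  have hm1 : 2 * m ≤ n := by omega
  have hm2 : n ≤ 2 * (n - m) := by omega
  have hm3 : n ≤ 2 * m + 1 := by omega
  have hmn : n = m + (n - m) := by omega
  have hbn : 0 < b ^ n := pow_pos hbpos n
  have e1 : b ^ (2 * (n - m)) ≤ b ^ n := pow_le_pow_of_le_one hbpos.le hb1.le hm2
  have e2 : b ^ (2 * m + 1) ≤ b ^ n := pow_le_pow_of_le_one hbpos.le hb1.le hm3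
  have e3 : b ^ (2 * m) ≤ 2 * b ^ n := by
    rw [pow_succ] at e2
    have : 0 < b ^ (2 * m) := pow_pos hbpos _
    nlinarith
  have l1 : lam ^ n = lam ^ m * lam ^ (n - m) := by rw [← pow_add]; congr 1
  have p1 : 0 < lam ^ m := pow_pos hlpos _
  have p2 : 0 < lam ^ (n - m) := pow_pos hlpos _
  refine ⟨?_, ?_, ?_, ?_⟩
  · rw [mul_pow, l1]
    have h3 : 1 ≤ (b ^ 2 * lam) ^ (n - m) := one_le_pow₀ hb2l
    rw [mul_pow, ← pow_mul] at h3
    have h4 : 1 ≤ b ^ n * lam ^ (n - m) := h3.trans (mul_le_mul_of_nonneg_right e1 p2.le)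
    calc lam ^ m = lam ^ m * 1 := (mul_one _).symm
      _ ≤ lam ^ m * (b ^ n * lam ^ (n - m)) := mul_le_mul_of_nonneg_left h4 p1.le
      _ = _ := by ring
  · rw [mul_pow, l1]
    have h3 : 1 ≤ (b ^ 2 * lam) ^ m := one_le_pow₀ hb2l
    rw [mul_pow, ← pow_mul] at h3
    have h4 : 1 ≤ 2 * b ^ n * lam ^ m := h3.trans (mul_le_mul_of_nonneg_right e3 p1.le)
    calc lam ^ (n - m) = lam ^ (n - m) * 1 := (mul_one _).symm
      _ ≤ lam ^ (n - m) * (2 * b ^ n * lam ^ m) := mul_le_mul_of_nonneg_left h4 p2.le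
      _ = _ := by ring
  · rw [mul_pow]
    have h3 : b₁ ^ m ≤ b ^ (2 * m) := by
      rw [pow_mul]
      exact pow_le_pow_left₀ h0.le (hcb.trans hb2) m
    have h4 : 0 < lam ^ n := pow_pos hlpos n
    calc b₁ ^ m * lam ^ n ≤ (2 * b ^ n) * lam ^ n :=
          mul_le_mul_of_nonneg_right (h3.trans e3) h4.le
      _ = _ := by ring
  · exact one_le_pow₀ (by nlinarith)

section piece

variable {nrm len : G → ℝ} {C : ℝ}

/-- Short words. -/
theorem short (hL : LenData nrm len C) {j : Fin 3} {κ c₁ L : ℝ} (hκ0 : 0 ≤ κ) (hκ : κ ≤ c₁⁻¹)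
    (s : List (Fin 4)) (hs : wlen j (posW s) ≤ L) :
    |nrm (posG s) - κ * wlen j (posW s)| ≤ 120 * C * L + 4 * C + c₁⁻¹ * L := by
  have hC := C_nonneg hL
  have h1 := nrm_word hL s
  have h2 := hL.nn (posG s)
  have h3 := len_le j s
  have h4 := wlen_nonneg j (posW s)
  have h5 : 2 * C * s.length ≤ 2 * C * (60 * L) :=
    mul_le_mul_of_nonneg_left (h3.trans (by linarith)) (by linarith)
  have h6 : κ * wlen j (posW s) ≤ c₁⁻¹ * L := mul_le_mul hκ hs h4 (hκ0.trans hκ)
  have h7 : 0 ≤ κ * wlen j (posW s) := mul_nonneg hκ0 h4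
  have h8 : 0 ≤ L := h4.trans hs
  have h9 : 0 ≤ C * L := mul_nonneg hC h8
  rw [abs_le]
  constructor <;> linarith

theorem piece (hL : LenData nrm len C) (hN : NA nrm C) {κ : List (Fin 13) → ℝ} {Q₁ b₁ c₁ b : ℝ}
    (hQ₁ : 0 ≤ Q₁) (hb₁ : 0 < b₁)
    (hb : ∀ n : ℕ, lam ^ (n / 2) ≤ (b * lam) ^ n ∧ lam ^ (n - n / 2) ≤ 2 * (b * lam) ^ n ∧
      b₁ ^ (n / 2) * lam ^ n ≤ 2 * (b * lam) ^ n ∧ 1 ≤ (b * lam) ^ n)
    {j i : Fin 3} {p : List (Fin 13)} (hp : RPath j i p)
    (hκ0 : 0 ≤ κ p) (hκ : κ p ≤ c₁⁻¹)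
    (hq : ∀ q k, q <+: p → RPath j k q → |κ p - κ q| ≤ Q₁ * b₁ ^ q.length ∧
      ∀ x, |nrm (posG (pathSub q x)) - κ q * lam ^ q.length * wid k x| ≤
        Q₁ * (b₁ * lam) ^ q.length)
    (v : List (Fin 4)) (a : Fin 4) (hv : v <:+: pathSub p a) :
    |nrm (posG v) - κ p * wlen j (posW v)| ≤
      (379 * C + 2 * c₁⁻¹ + 122 * Q₁) * (b * lam) ^ p.length := by
  have hC := C_nonneg hL
  obtain ⟨m, hm⟩ : ∃ m, m = p.length / 2 := ⟨_, rfl⟩
  obtain ⟨q, hqdef⟩ : ∃ q, q = p.take m := ⟨_, rfl⟩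
  obtain ⟨t, htdef⟩ : ∃ t, t = p.drop m := ⟨_, rfl⟩
  have hpqt : p = q ++ t := by rw [hqdef, htdef, List.take_append_drop]
  have hql : q.length = m := by rw [hqdef, List.length_take]; omega
  have htl : t.length = p.length - m := by rw [htdef, List.length_drop]
  obtain ⟨hb1, hb2, hb3, hb4⟩ := hb p.length
  rw [← hm] at hb1 hb2 hb3
  obtain ⟨k, hk1, hk2⟩ := split (hpqt ▸ hp)
  have hqp : q <+: p := ⟨t, hpqt.symm⟩
  obtain ⟨hq1, hq2⟩ := hq q k hqp hk1
  rw [hql] at hq1 hq2
  rw [hpqt, pathSub_append] at hv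
  obtain ⟨s, l', t', rfl, hl', hs, ht'⟩ := infix_flatMap _ _ _ hv
  have hlm : 0 < lam ^ m := pow_pos lam_pos m
  have hwq : ∀ x, wlen j (posW (pathSub q x)) ≤ lam ^ m := fun x => by
    have := wlen_pathSub_le hk1 x
    rwa [hql] at this
  have hs' : wlen j (posW s) ≤ lam ^ m := by
    rcases hs with rfl | ⟨x, _, hx⟩
    · simp [posW, wlen]; exact hlm.le
    · exact (wlen_infix j hx).trans (hwq x)
  have ht'' : wlen j (posW t') ≤ lam ^ m := by
    rcases ht' with rfl | ⟨x, _, hx⟩
    · simp [posW, wlen]; exact hlm.le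
    · exact (wlen_infix j hx).trans (hwq x)
  have e1 := abs_le.1 (short hL hκ0 hκ s hs')
  have e2 := abs_le.1 (short hL hκ0 hκ t' ht'')
  -- the middle
  have hl'w : wlen k (posW l') ≤ lam ^ (p.length - m) := by
    have h1 := wlen_infix k hl'
    have h2 := wlen_pathSub_le hk2 a
    rw [htl] at h2
    exact h1.trans h2
  have hl'l : (l'.length : ℝ) ≤ 60 * lam ^ (p.length - m) := by
    have := len_le k l'
    linarith
  have hmid := wlen_path hk1 l'
  rw [hql] at hmid
  have e3 := abs_le.1 (pos_near hL hN (pathSub q) l')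
  have e4 : |(l'.map (fun y => nrm (posG (pathSub q y)))).sum -
      κ q * wlen j (posW (l'.flatMap (pathSub q)))| ≤ l'.length * (Q₁ * (b₁ * lam) ^ m) := by
    rw [hmid]
    clear e3 hmid hl'w hl'l hl' hv
    induction l' with
    | nil => simp [posW, wlen]
    | cons x l ih =>
      rw [List.map_cons, List.sum_cons, posW_cons, wlen_cons, List.length_cons]
      have h1 := abs_le.1 (hq2 x)
      have h2 := abs_le.1 ih
      push_cast
      rw [abs_le]
      constructor <;> linarith [h1.1, h1.2, h2.1, h2.2]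
  have hmidle : wlen j (posW (l'.flatMap (pathSub q))) ≤ lam ^ p.length := by
    rw [hmid]
    calc lam ^ m * wlen k (posW l') ≤ lam ^ m * lam ^ (p.length - m) :=
          mul_le_mul_of_nonneg_left hl'w hlm.le
      _ = lam ^ p.length := by rw [← pow_add]; congr 1; omega
  have hmid0 := wlen_nonneg j (posW (l'.flatMap (pathSub q)))
  have e5 : |κ p * wlen j (posW (l'.flatMap (pathSub q))) -
      κ q * wlen j (posW (l'.flatMap (pathSub q)))| ≤ Q₁ * b₁ ^ m * lam ^ p.length := by
    rw [← sub_mul, abs_mul, abs_of_nonneg hmid0]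
    exact mul_le_mul hq1 hmidle hmid0 (by positivity)
  have e6 : (l'.length : ℝ) * (Q₁ * (b₁ * lam) ^ m) ≤ 60 * (Q₁ * b₁ ^ m * lam ^ p.length) := by
    have h1 : 0 ≤ Q₁ * (b₁ * lam) ^ m := by
      have := lam_pos
      positivity
    calc (l'.length : ℝ) * (Q₁ * (b₁ * lam) ^ m) ≤
          (60 * lam ^ (p.length - m)) * (Q₁ * (b₁ * lam) ^ m) :=
          mul_le_mul_of_nonneg_right hl'l h1
      _ = 60 * (Q₁ * b₁ ^ m * (lam ^ m * lam ^ (p.length - m))) := by rw [mul_pow]; ring
      _ = _ := by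
          have : lam ^ m * lam ^ (p.length - m) = lam ^ p.length := by
            rw [← pow_add]; congr 1; omega
          rw [this]
  -- the concatenation
  have e7 := near hL hN [posW s, posW (l'.flatMap (pathSub q)), posW t'] (by
    intro w hw
    simp only [List.mem_cons, List.not_mem_nil, or_false] at hw
    rcases hw with rfl | rfl | rfl <;> exact SH_posW _) (by
      have : [posW s, posW (l'.flatMap (pathSub q)), posW t'].flatten =
          posW (s ++ (l'.flatMap (pathSub q) ++ t')) := by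
        simp [posW_append]
      rw [this]; exact isReduced_posW _)
  have e8 : [posW s, posW (l'.flatMap (pathSub q)), posW t'].flatten =
      posW (s ++ (l'.flatMap (pathSub q) ++ t')) := by
    simp [posW_append]
  rw [e8] at e7
  simp only [List.map_cons, List.map_nil, List.sum_cons, List.sum_nil, List.length_cons,
    List.length_nil] at e7
  have e9 := abs_le.1 e7
  change _ ≤ nrm (posG _) - (nrm (posG _) + (nrm (posG _) + (nrm (posG _) + 0))) ∧
    nrm (posG _) - (nrm (posG _) + (nrm (posG _) + (nrm (posG _) + 0))) ≤ _ at e9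
  have e4' := abs_le.1 e4
  have e5' := abs_le.1 e5
  have f1 : wlen j (posW (s ++ (l'.flatMap (pathSub q) ++ t'))) =
      wlen j (posW s) + (wlen j (posW (l'.flatMap (pathSub q))) + wlen j (posW t')) := by
    rw [posW_append, posW_append, wlen_append, wlen_append]
  rw [f1]
  set X := (b * lam) ^ p.length
  have g1 : C * lam ^ m ≤ C * X := mul_le_mul_of_nonneg_left hb1 hC
  have g2 : C * lam ^ (p.length - m) ≤ C * (2 * X) := mul_le_mul_of_nonneg_left hb2 hC
  have g3 : Q₁ * (b₁ ^ m * lam ^ p.length) ≤ Q₁ * (2 * X) := mul_le_mul_of_nonneg_left hb3 hQ₁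
  have g4 : C * 1 ≤ C * X := mul_le_mul_of_nonneg_left hb4 hC
  have g5 : c₁⁻¹ * lam ^ m ≤ c₁⁻¹ * X := mul_le_mul_of_nonneg_left hb1 (hκ0.trans hκ)
  have g6 : C * l'.length ≤ C * (60 * lam ^ (p.length - m)) := mul_le_mul_of_nonneg_left hl'l hC
  push_cast at e9
  rw [abs_le]
  constructor <;>
    linarith [e1.1, e1.2, e2.1, e2.2, e3.1, e3.2, e4'.1, e4'.2, e5'.1, e5'.2, e9.1, e9.2]

end piece

end TAux

open SubAux DoebAux TAux in
theorem stmt_T (hPathV : Stmt_PathV) (hCoarse : Stmt_Coarse) (hPieces : Stmt_Pieces)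
    (hVConj : Stmt_VConj) : Stmt_T := by
  intro C c₀ C₀ hc₀
  rcases lt_or_ge C 0 with hneg | hC
  · refine ⟨0, 1 / 2, 1, le_rfl, by norm_num, by norm_num, one_pos, fun nrm len hL hN => ?_⟩
    exact absurd (C_nonneg hL) (not_le.2 hneg)
  obtain ⟨Q₁, b₁, c₁, hQ₁, hb₁, hb₁', hc₁, hDoeb⟩ := stmt_Doeb (54 * C) c₀ C₀ hc₀
  obtain ⟨Cc, hCc, hCoarse⟩ := hCoarse
  obtain ⟨b, hb0, hb1, hbb, hb⟩ := rate hb₁ hb₁'
  have hc₁i : 0 < c₁⁻¹ := inv_pos.2 hc₁
  set Q₂ := 379 * C + 2 * c₁⁻¹ + 122 * Q₁ with hQ₂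
  have hQ₂0 : 0 ≤ Q₂ := by positivity
  refine ⟨Q₁ + Q₂ + 7 * C + c₁⁻¹ * Cc, b, c₁, by positivity, by linarith, hb1, hc₁,
    fun nrm len hL hN => ?_⟩
  obtain ⟨κ, hκ⟩ := hDoeb (fun q x => nrm (posG (pathSub q x))) (by
    intro x
    show |nrm (posG [x])| ≤ _
    rw [posG_singleton, abs_of_nonneg (hL.nn _)]
    have := hL.gen x
    linarith)
  refine ⟨κ, fun j i p hp hlow => ?_⟩
  -- the hypotheses of Doeb for prefixes of `p`
  have hall : ∀ q k, q <+: p → RPath j k q → c₁ ≤ κ q ∧ κ q ≤ c₁⁻¹ ∧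
      (∀ q', q' <+: q → |κ q - κ q'| ≤ Q₁ * b₁ ^ q'.length) ∧
      ∀ x, |nrm (posG (pathSub q x)) - κ q * lam ^ q.length * wid k x| ≤
        Q₁ * (b₁ * lam) ^ q.length := by
    intro q k hq hk
    refine hκ j k q hk ?_ ?_
    · intro q' r _ x
      have h1 := pos_near hL hN (pathSub q') (roleSub r x)
      have h2 : pathSub (q' ++ [r]) x = (roleSub r x).flatMap (pathSub q') := by
        rw [pathSub_append]; simp [pathSub]
      rw [h2]
      refine h1.trans ?_
      have h3 : ((roleSub r x).length : ℝ) ≤ 50 := by exact_mod_cast subLen r x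
      nlinarith
    · intro q' hq' x
      have := hlow q' (hq'.trans hq) x
      rwa [pathAut_of] at this
  obtain ⟨hp1, hp2, hp3, hp4⟩ := hall p i (List.prefix_refl _) hp
  have hκ0 : 0 ≤ κ p := hc₁.le.trans hp1
  refine ⟨hp1, hp2, fun q hq => ?_, ?_⟩
  · refine (hp3 q hq).trans ?_
    have h1 : b₁ ^ q.length ≤ b ^ q.length := pow_le_pow_left₀ hb₁.le hbb _
    have h2 : 0 ≤ b₁ ^ q.length := by positivity
    have h3 : 0 ≤ b ^ q.length := h2.trans h1
    calc Q₁ * b₁ ^ q.length ≤ Q₁ * b ^ q.length := mul_le_mul_of_nonneg_left h1 hQ₁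
      _ ≤ _ := mul_le_mul_of_nonneg_right (by
        have : 0 ≤ c₁⁻¹ * Cc := by positivity
        linarith) h3
  intro s hs g
  obtain ⟨g', L, hconj, hcyc, hLlen, hword, hinf⟩ := hPieces p g
  set Ls : List (List (Fin 4 × Bool)) := L.map sgn with hLs
  have hword' : g'.toWord = Ls.flatten := hword
  have hSH : ∀ w ∈ Ls, SH w := by
    intro w hw
    obtain ⟨x, _, rfl⟩ := List.mem_map.1 hw
    exact SH_sgn x
  have hmk : (FreeGroup.mk Ls.flatten : G) = g' := by rw [← hword', FreeGroup.mk_toWord]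
  have hred : FreeGroup.IsReduced Ls.flatten := by rw [← hword']; exact hcyc.isReduced
  have hcyc' : FreeGroup.IsCyclicallyReduced Ls.flatten := by rw [← hword']; exact hcyc
  have hlen : len (pathAut p g) = len g' := by
    obtain ⟨d, hd⟩ := isConj_iff.1 hconj
    rw [← hd, hL.conj]
  have hV : V j s (pathAut p g) = V j s g' := by
    obtain ⟨d, hd⟩ := isConj_iff.1 hconj
    rw [← hd]
    exact ((hVConj _ _ d).1).symm
  have hVp : lam ^ p.length * V i (pathMap p s) g = V j s g' := by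
    rw [(hPathV j i p hp s hs).2 g, hV, ← mul_assoc, mul_inv_cancel₀, one_mul]
    exact (pow_pos lam_pos _).ne'
  have hPk : Pieces g.norm g' := ⟨Ls, by rw [hLs, List.length_map]; exact hLlen, hSH, hword'⟩
  have hco1 := (hCoarse j s hs).1 g'
  have hco2 := (hCoarse j s hs).2 g' g.norm hcyc hPk
  -- pieces
  set X := (b * lam) ^ p.length with hX
  have hX1 : 1 ≤ X := (hb p.length).2.2.2
  have hpc : ∀ x ∈ L, |nrm (FreeGroup.mk (sgn x)) - κ p * wlen j (sgn x)| ≤ Q₂ * X + C := by
    intro x hx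
    obtain ⟨a, ha⟩ := hinf x hx
    have h1 := abs_le.1 (piece hL hN hQ₁ hb₁ hb hp hκ0 hp2
      (fun q k hq hk => ⟨hp3 q hq, (hall q k hq hk).2.2.2⟩) x.1 a ha)
    have h2 := abs_le.1 (nrm_sgn hL x)
    rw [wlen_sgn, abs_le]
    constructor <;> linarith [h1.1, h1.2, h2.1, h2.2]
  have hsum : |(Ls.map (fun w => nrm (FreeGroup.mk w))).sum - κ p * wnorm j g'| ≤
      L.length * (Q₂ * X + C) := by
    have e1 : wnorm j g' = wlen j Ls.flatten := by rw [wnorm, hword']
    rw [e1, hLs]
    clear_value X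
    clear hword hword' hLs hLlen hPk hcyc' hred hmk hSH hinf e1
    induction L with
    | nil => simp [wlen]
    | cons x L ih =>
      have h1 := abs_le.1 (hpc x (by simp))
      have h2 := abs_le.1 (ih (fun y hy => hpc y (by simp [hy])))
      simp only [List.map_cons, List.flatten_cons, List.sum_cons, List.length_cons]
      rw [wlen_append]
      push_cast
      rw [abs_le]
      constructor <;> linarith [h1.1, h1.2, h2.1, h2.2]
  have hsum' := abs_le.1 hsum
  have hnear := abs_le.1 (near hL hN Ls hSH hred)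
  have hlow' := low hL hN Ls hSH hcyc'
  rw [hmk] at hnear hlow'
  have hle := hL.le g'
  have hLl : (Ls.length : ℝ) = L.length := by rw [hLs, List.length_map]
  rw [hLl] at hnear hlow'
  have hLn : (L.length : ℝ) ≤ g.norm := by exact_mod_cast hLlen
  have hL0 : (0 : ℝ) ≤ L.length := Nat.cast_nonneg _
  set n : ℝ := (g.norm : ℝ) with hn
  have hn0 : 0 ≤ n := hL0.trans hLn
  rw [hlen, mul_assoc, hVp]
  have k1 : (L.length : ℝ) * (Q₂ * X + C) ≤ n * (Q₂ * X + C) :=
    mul_le_mul_of_nonneg_right hLn (by positivity)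
  have k2 : C * L.length ≤ C * n := mul_le_mul_of_nonneg_left hLn hC
  have k3 : κ p * V j s g' ≤ κ p * wnorm j g' := mul_le_mul_of_nonneg_left hco1 hκ0
  have k4 : κ p * wnorm j g' ≤ κ p * V j s g' + c₁⁻¹ * (Cc * n) := by
    have h1 : κ p * (wnorm j g' - Cc * n) ≤ κ p * V j s g' := mul_le_mul_of_nonneg_left hco2 hκ0
    have h2 : κ p * (Cc * n) ≤ c₁⁻¹ * (Cc * n) := mul_le_mul_of_nonneg_right hp2 (by positivity)
    linarith
  have k5 : C * n * 1 ≤ C * n * X := mul_le_mul_of_nonneg_left hX1 (by positivity)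
  have k6 : C * 1 ≤ C * X := mul_le_mul_of_nonneg_left hX1 hC
  have k7 : c₁⁻¹ * (Cc * n) * 1 ≤ c₁⁻¹ * (Cc * n) * X :=
    mul_le_mul_of_nonneg_left hX1 (by positivity)
  have k8 : 0 ≤ Q₁ * X * n := by positivity
  have k9 : 0 ≤ Q₁ * X := by positivity
  have k10 : 0 ≤ Q₂ * X := by positivity
  have k11 : 0 ≤ c₁⁻¹ * Cc * X := by positivity
  have k12 : 0 ≤ C * X * n := by positivity
  have k13 : 0 ≤ C * X := by positivity
  rw [abs_le]
  constructor
  · linarith [hsum'.1, hsum'.2, hnear.1, hnear.2]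
  · linarith [hsum'.1, hsum'.2, hnear.1, hnear.2]

end Pool.Agent.CircleShift
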